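import Mathlib

/-!
Every point `p` of the convex hull of a closed set `X` with `d(p) > lam` is
`lam`-reconstructible from the `lam`-medial axis of `X`.
-/

open Metric Set Filter Topology
open scoped RealInnerProductSpace

namespace Pool.Agent.Results.MP_15b8d6_gt.Reconstructible

/-- The set `m(a)` of nearest points of `X` to `a`. -/
def nearest {n : ℕ} (X : Set (EuclideanSpace ℝ (Fin n))) (a : EuclideanSpace ℝ (Fin n)) :
    Set (EuclideanSpace ℝ (Fin n)) :=
  {x | x ∈ X ∧ dist a x = infDist a X}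

/-- The medial axis: points with more than one nearest point. -/
def medialAxis {n : ℕ} (X : Set (EuclideanSpace ℝ (Fin n))) : Set (EuclideanSpace ℝ (Fin n)) :=
  {a | 1 < (nearest X a).encard}

/-- The `lam`-medial axis: points `a` of the medial axis such that `m(a)` is not contained in
any closed ball of radius `lam`. -/
def lamMedialAxis {n : ℕ} (X : Set (EuclideanSpace ℝ (Fin n))) (lam : ℝ) :
    Set (EuclideanSpace ℝ (Fin n)) :=
  {a | a ∈ medialAxis X ∧ ∀ c, ¬ nearest X a ⊆ closedBall c lam}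

/-- `p` is `lam`-reconstructible: `p` is outside `X` and lies in the union of the open balls
`B(a, d(a))`, `a` in the `lam`-medial axis. -/
def LamReconstructible {n : ℕ} (X : Set (EuclideanSpace ℝ (Fin n))) (lam : ℝ)
    (p : EuclideanSpace ℝ (Fin n)) : Prop :=
  p ∉ X ∧ p ∈ ⋃ a ∈ lamMedialAxis X lam, ball a (infDist a X)

lemma bound {n : ℕ} {X : Set (EuclideanSpace ℝ (Fin n))} {p : EuclideanSpace ℝ (Fin n)}
    (hp : p ∈ convexHull ℝ X) :
    ∃ C : ℝ, 0 ≤ C ∧ ∀ b : EuclideanSpace ℝ (Fin n),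
      (infDist (p + b) X) ^ 2 - ‖b‖ ^ 2 ≤ C := by
  obtain ⟨ι, _, w, z, hw0, hw1, hz, hsum⟩ := mem_convexHull_iff_exists_fintype.1 hp
  refine ⟨∑ i, w i * ‖z i - p‖ ^ 2, Finset.sum_nonneg fun i _ =>
    mul_nonneg (hw0 i) (sq_nonneg _), fun b => ?_⟩
  have h1 : ∀ i, (infDist (p + b) X) ^ 2 ≤ ‖z i - p‖ ^ 2 - 2 * ⟪b, z i - p⟫ + ‖b‖ ^ 2 := by
    intro i
    have h2 : infDist (p + b) X ≤ dist (p + b) (z i) := infDist_le_dist_of_mem (hz i)
    have h3 : dist (p + b) (z i) ^ 2 = ‖z i - p‖ ^ 2 - 2 * ⟪b, z i - p⟫ + ‖b‖ ^ 2 := by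
      rw [dist_eq_norm, show p + b - z i = b - (z i - p) by abel, @norm_sub_sq_real]
      ring
    rw [← h3]
    exact pow_le_pow_left₀ infDist_nonneg h2 2
  have h4 : ∑ i, w i * (infDist (p + b) X) ^ 2 ≤
      ∑ i, w i * (‖z i - p‖ ^ 2 - 2 * ⟪b, z i - p⟫ + ‖b‖ ^ 2) :=
    Finset.sum_le_sum fun i _ => mul_le_mul_of_nonneg_left (h1 i) (hw0 i)
  have h5 : ∑ i, w i * (infDist (p + b) X) ^ 2 = (infDist (p + b) X) ^ 2 := by
    rw [← Finset.sum_mul, hw1, one_mul]
  have h6 : ∑ i, w i * ⟪b, z i - p⟫ = 0 := by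
    have : ∑ i, w i * ⟪b, z i - p⟫ = ⟪b, ∑ i, w i • (z i - p)⟫ := by
      rw [inner_sum]
      refine Finset.sum_congr rfl fun i _ => ?_
      rw [inner_smul_right]
    rw [this]
    have h7 : ∑ i, w i • (z i - p) = 0 := by
      simp only [smul_sub]
      rw [Finset.sum_sub_distrib, hsum, ← Finset.sum_smul, hw1, one_smul, sub_self]
    rw [h7, inner_zero_right]
  have h8 : ∑ i, w i * (‖z i - p‖ ^ 2 - 2 * ⟪b, z i - p⟫ + ‖b‖ ^ 2) =
      ∑ i, w i * ‖z i - p‖ ^ 2 - 2 * ∑ i, w i * ⟪b, z i - p⟫ + ‖b‖ ^ 2 := by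
    have e1 : ∀ i, w i * (‖z i - p‖ ^ 2 - 2 * ⟪b, z i - p⟫ + ‖b‖ ^ 2) =
        w i * ‖z i - p‖ ^ 2 - 2 * (w i * ⟪b, z i - p⟫) + w i * ‖b‖ ^ 2 := by
      intro i; ring
    simp_rw [e1]
    rw [Finset.sum_add_distrib, Finset.sum_sub_distrib, ← Finset.mul_sum, ← Finset.sum_mul, hw1,
      one_mul]
  rw [h5, h8, h6] at h4
  linarith

/-- Existence of a maximiser of `d(p+b)^2 - |b|^2 - ε |b|^2`. -/
lemma exists_max {n : ℕ} {X : Set (EuclideanSpace ℝ (Fin n))} {p : EuclideanSpace ℝ (Fin n)}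
    {C ε : ℝ} (hε : 0 < ε)
    (hC : ∀ b : EuclideanSpace ℝ (Fin n), (infDist (p + b) X) ^ 2 - ‖b‖ ^ 2 ≤ C) :
    ∃ b : EuclideanSpace ℝ (Fin n), ∀ b', (infDist (p + b') X) ^ 2 - ‖b'‖ ^ 2 - ε * ‖b'‖ ^ 2 ≤
      (infDist (p + b) X) ^ 2 - ‖b‖ ^ 2 - ε * ‖b‖ ^ 2 := by
  set Φ : EuclideanSpace ℝ (Fin n) → ℝ :=
    fun b => (infDist (p + b) X) ^ 2 - ‖b‖ ^ 2 - ε * ‖b‖ ^ 2 with hΦ
  have hcont : Continuous Φ := by
    have : Continuous fun b : EuclideanSpace ℝ (Fin n) => infDist (p + b) X :=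
      (continuous_infDist_pt X).comp (continuous_const.add continuous_id)
    fun_prop
  have hΦ0 : Φ 0 = (infDist p X) ^ 2 := by simp [hΦ]
  have hC0 : 0 ≤ C := by
    have := hC 0
    simp at this
    nlinarith [sq_nonneg (infDist p X)]
  set R : ℝ := Real.sqrt (C / ε) + 1 with hR
  have hR0 : 0 < R := by positivity
  have hRε : C < ε * R ^ 2 := by
    have h1 : Real.sqrt (C / ε) ^ 2 = C / ε := Real.sq_sqrt (by positivity)
    have h2 : Real.sqrt (C / ε) ^ 2 < R ^ 2 := by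
      apply pow_lt_pow_left₀ _ (Real.sqrt_nonneg _) (by norm_num)
      linarith
    rw [h1] at h2
    have h3 := mul_lt_mul_of_pos_left h2 hε
    rwa [mul_div_cancel₀ _ hε.ne'] at h3
  obtain ⟨b, _, hb⟩ := (isCompact_closedBall (0 : EuclideanSpace ℝ (Fin n)) R).exists_isMaxOn
    ⟨0, by simp [hR0.le]⟩ hcont.continuousOn
  refine ⟨b, fun b' => ?_⟩
  change Φ b' ≤ Φ b
  by_cases hb' : b' ∈ closedBall (0 : EuclideanSpace ℝ (Fin n)) R
  · exact hb hb'
  · have h0 : Φ 0 ≤ Φ b := hb (by simp [hR0.le])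
    have h1 : R < ‖b'‖ := by simpa using hb'
    have h2 : R ^ 2 < ‖b'‖ ^ 2 := pow_lt_pow_left₀ h1 hR0.le (by norm_num)
    have h3 := hC b'
    have h4 : Φ b' < 0 := by
      simp only [hΦ]
      nlinarith
    have h5 : 0 ≤ Φ 0 := by rw [hΦ0]; positivity
    linarith

lemma mem_closure_hull {n : ℕ} {X : Set (EuclideanSpace ℝ (Fin n))} (hX : IsClosed X)
    (hne : X.Nonempty) {p b : EuclideanSpace ℝ (Fin n)} {ε : ℝ} (hε : 0 < ε)
    (hmax : ∀ b', (infDist (p + b') X) ^ 2 - ‖b'‖ ^ 2 - ε * ‖b'‖ ^ 2 ≤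
      (infDist (p + b) X) ^ 2 - ‖b‖ ^ 2 - ε * ‖b‖ ^ 2) :
    p - ε • b ∈ closure (convexHull ℝ (nearest X (p + b))) := by
  by_contra hq
  set q := p - ε • b with hqdef
  obtain ⟨f, u, hfu, hfb⟩ := geometric_hahn_banach_point_closed
    (convex_convexHull ℝ (nearest X (p + b))).closure isClosed_closure hq
  set w : EuclideanSpace ℝ (Fin n) := (InnerProductSpace.toDual ℝ _).symm f with hw
  have hfw : ∀ x, f x = ⟪w, x⟫ := fun x => by
    rw [hw, InnerProductSpace.toDual_symm_apply]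
  -- nearest points for the perturbed centres
  have hex : ∀ t : ℝ, ∃ x ∈ X, infDist (p + (b - t • w)) X = dist (p + (b - t • w)) x :=
    fun t => hX.exists_infDist_eq_dist hne _
  choose x hxX hxd using hex
  -- basic inequality
  have hineq : ∀ t : ℝ, 0 < t → 2 * ⟪w, x t - q⟫ ≤ ε * t * ‖w‖ ^ 2 := by
    intro t ht
    have h1 := hmax (b - t • w)
    rw [hxd t] at h1
    have h2 : infDist (p + b) X ≤ dist (p + b) (x t) := infDist_le_dist_of_mem (hxX t)
    have h3 : (infDist (p + b) X) ^ 2 ≤ dist (p + b) (x t) ^ 2 :=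
      pow_le_pow_left₀ infDist_nonneg h2 2
    have h4 : dist (p + (b - t • w)) (x t) ^ 2 =
        dist (p + b) (x t) ^ 2 - 2 * t * ⟪w, p + b - x t⟫ + t ^ 2 * ‖w‖ ^ 2 := by
      rw [dist_eq_norm, dist_eq_norm,
        show p + (b - t • w) - x t = (p + b - x t) - t • w by abel, @norm_sub_sq_real,
        real_inner_comm, inner_smul_left, norm_smul]
      simp only [conj_trivial, Real.norm_eq_abs, mul_pow, sq_abs]
      ring
    have h5 : ‖b - t • w‖ ^ 2 = ‖b‖ ^ 2 - 2 * t * ⟪w, b⟫ + t ^ 2 * ‖w‖ ^ 2 := by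
      rw [@norm_sub_sq_real, real_inner_comm, inner_smul_left, norm_smul]
      simp only [conj_trivial, Real.norm_eq_abs, mul_pow, sq_abs]
      ring
    rw [h4, h5] at h1
    have h6 : ⟪w, x t - q⟫ = ⟪w, x t⟫ - ⟪w, p⟫ + ε * ⟪w, b⟫ := by
      rw [hqdef, inner_sub_right, inner_sub_right, inner_smul_right]; ring
    have h7 : ⟪w, p + b - x t⟫ = ⟪w, p⟫ + ⟪w, b⟫ - ⟪w, x t⟫ := by
      rw [inner_sub_right, inner_add_right]
    rw [h7] at h1
    have h8 : t * (2 * ⟪w, x t - q⟫) ≤ t * (ε * t * ‖w‖ ^ 2) := by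
      rw [h6]
      nlinarith
    exact le_of_mul_le_mul_left h8 ht
  -- sequence
  set t : ℕ → ℝ := fun k => 1 / ((k : ℝ) + 1) with ht
  have htpos : ∀ k, 0 < t k := fun k => by positivity
  have ht1 : ∀ k, t k ≤ 1 := fun k => by
    rw [ht]; simp only
    rw [div_le_one (by positivity)]
    have : (0 : ℝ) ≤ k := Nat.cast_nonneg k
    linarith
  have ht0 : Tendsto t atTop (𝓝 0) := tendsto_one_div_add_atTop_nhds_zero_nat
  have hc0 : Tendsto (fun k => p + (b - t k • w)) atTop (𝓝 (p + b)) := by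
    have : Tendsto (fun k => p + (b - t k • w)) atTop (𝓝 (p + (b - (0 : ℝ) • w))) :=
      tendsto_const_nhds.add (tendsto_const_nhds.sub (ht0.smul_const w))
    simpa using this
  have hbdd : ∀ k, x (t k) ∈ closedBall (p + b) (infDist (p + b) X + 2 * ‖w‖) := by
    intro k
    rw [mem_closedBall, dist_comm]
    have h1 : dist (p + b) (p + (b - t k • w)) ≤ ‖w‖ := by
      rw [dist_eq_norm, show p + b - (p + (b - t k • w)) = t k • w by abel, norm_smul,
        Real.norm_eq_abs, abs_of_pos (htpos k)]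
      exact mul_le_of_le_one_left (norm_nonneg _) (ht1 k)
    have h2 : dist (p + (b - t k • w)) (x (t k)) ≤ infDist (p + b) X + ‖w‖ := by
      rw [← hxd]
      refine (infDist_le_infDist_add_dist (y := p + b)).trans ?_
      rw [dist_comm] at h1
      linarith
    have h3 := dist_triangle (p + b) (p + (b - t k • w)) (x (t k))
    linarith
  obtain ⟨y, _, φ, hφ, hφy⟩ := (isCompact_closedBall (p + b)
    (infDist (p + b) X + 2 * ‖w‖)).tendsto_subseq hbdd
  have hyX : y ∈ X := hX.mem_of_tendsto hφy (Eventually.of_forall fun k => hxX _)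
  have hyd : dist (p + b) y = infDist (p + b) X := by
    have h1 : Tendsto (fun k => dist (p + (b - t (φ k) • w)) (x (t (φ k)))) atTop
        (𝓝 (dist (p + b) y)) :=
      (hc0.comp hφ.tendsto_atTop).dist hφy
    have h2 : Tendsto (fun k => infDist (p + (b - t (φ k) • w)) X) atTop
        (𝓝 (infDist (p + b) X)) :=
      ((continuous_infDist_pt X).tendsto (p + b)).comp (hc0.comp hφ.tendsto_atTop)
    have h3 : (fun k => infDist (p + (b - t (φ k) • w)) X) =
        fun k => dist (p + (b - t (φ k) • w)) (x (t (φ k))) := by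
      funext k; exact hxd _
    rw [h3] at h2
    exact tendsto_nhds_unique h1 h2
  have hynear : y ∈ nearest X (p + b) := ⟨hyX, hyd⟩
  have hlim : 2 * ⟪w, y - q⟫ ≤ 0 := by
    have h1 : Tendsto (fun k => 2 * ⟪w, x (t (φ k)) - q⟫) atTop (𝓝 (2 * ⟪w, y - q⟫)) := by
      have : Tendsto (fun k => x (t (φ k)) - q) atTop (𝓝 (y - q)) := hφy.sub_const q
      exact (tendsto_const_nhds.inner this).const_mul 2
    have h2 : Tendsto (fun k => ε * t (φ k) * ‖w‖ ^ 2) atTop (𝓝 (ε * 0 * ‖w‖ ^ 2)) :=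
      ((ht0.comp hφ.tendsto_atTop).const_mul ε).mul_const _
    have h3 := le_of_tendsto_of_tendsto' h1 h2 (fun k => hineq _ (htpos _))
    simpa using h3
  have h1 : u < ⟪w, y⟫ := by
    rw [← hfw]; exact hfb y (subset_closure (subset_convexHull ℝ _ hynear))
  have h2 : ⟪w, q⟫ < u := by rw [← hfw]; exact hfu
  rw [inner_sub_right] at hlim
  linarith

/-- Every point `p` of the convex hull of a nonempty closed set `X` in `n`-dimensional Euclidean
space with `d(p) > lam > 0` is `lam`-reconstructible. -/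
theorem result : ∀ (n : ℕ), 1 ≤ n → ∀ X : Set (EuclideanSpace ℝ (Fin n)), X.Nonempty →
    IsClosed X → ∀ lam : ℝ, 0 < lam → ∀ p ∈ convexHull ℝ X, lam < infDist p X →
      LamReconstructible X lam p := by
  intro n _ X hne hX lam hlam p hp hd
  have hpX : p ∉ X := by
    intro h
    rw [infDist_zero_of_mem h] at hd
    linarith
  refine ⟨hpX, ?_⟩
  obtain ⟨C, hC0, hC⟩ := bound hp
  set g : ℝ := infDist p X - lam with hg
  have hg0 : 0 < g := by rw [hg]; linarith
  set ε : ℝ := g ^ 2 / (2 * (C + 1)) with hεdef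
  have hε : 0 < ε := by positivity
  obtain ⟨b, hb⟩ := exists_max hε hC
  have hb0 := hb 0
  have hCb := hC b
  simp only [add_zero, norm_zero, ne_eq, OfNat.ofNat_ne_zero, not_false_eq_true, zero_pow,
    mul_zero, sub_zero] at hb0
  have hdp : 0 < infDist p X := hlam.trans hd
  -- `ε |b|^2 ≤ C`
  have h1 : ε * ‖b‖ ^ 2 ≤ C := by nlinarith [sq_nonneg (infDist p X)]
  have h2 : ‖ε • b‖ < g := by
    rw [norm_smul, Real.norm_eq_abs, abs_of_pos hε]
    have h3 : (ε * ‖b‖) ^ 2 < g ^ 2 := by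
      have h4 : (ε * ‖b‖) ^ 2 = ε * (ε * ‖b‖ ^ 2) := by ring
      rw [h4]
      calc ε * (ε * ‖b‖ ^ 2) ≤ ε * C := mul_le_mul_of_nonneg_left h1 hε.le
        _ < ε * (2 * (C + 1)) := by
            apply mul_lt_mul_of_pos_left _ hε
            linarith
        _ = g ^ 2 := by
            rw [hεdef]; field_simp
    exact lt_of_pow_lt_pow_left₀ 2 hg0.le h3
  set q := p - ε • b with hq
  have hqmem : q ∈ closure (convexHull ℝ (nearest X (p + b))) := mem_closure_hull hX hne hε hb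
  have hdq : lam < infDist q X := by
    have h3 : infDist p X ≤ infDist q X + dist p q := infDist_le_infDist_add_dist
    have h4 : dist p q = ‖ε • b‖ := by
      rw [dist_eq_norm, hq]; congr 1; abel
    rw [h4] at h3
    linarith
  -- the contact set is not contained in a closed ball of radius `lam`
  have hnot : ∀ c, ¬ nearest X (p + b) ⊆ closedBall c lam := by
    intro c hsub
    set κ : ℝ := (infDist q X) ^ 2 - lam ^ 2 with hκ
    have hκ0 : 0 < κ := by nlinarith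
    set S : Set (EuclideanSpace ℝ (Fin n)) :=
      {x | ⟪q - c, x⟫ ≤ (‖q‖ ^ 2 - ‖c‖ ^ 2 - κ) / 2} with hS
    have hSconv : Convex ℝ S :=
      convex_halfSpace_le ((innerₛₗ ℝ (q - c)).isLinear) _
    have hSclosed : IsClosed S :=
      isClosed_le (continuous_const.inner continuous_id) continuous_const
    have hnS : nearest X (p + b) ⊆ S := by
      intro x hx
      have hx1 : dist x c ≤ lam := hsub hx
      have hx2 : infDist q X ≤ dist q x := infDist_le_dist_of_mem hx.1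
      have hx3 : dist x c ^ 2 ≤ lam ^ 2 := pow_le_pow_left₀ dist_nonneg hx1 2
      have hx4 : (infDist q X) ^ 2 ≤ dist q x ^ 2 := pow_le_pow_left₀ infDist_nonneg hx2 2
      rw [dist_eq_norm, @norm_sub_sq_real] at hx3 hx4
      change ⟪q - c, x⟫ ≤ (‖q‖ ^ 2 - ‖c‖ ^ 2 - κ) / 2
      rw [inner_sub_left, real_inner_comm x c, hκ]
      linarith
    have hqS : q ∈ S :=
      (closure_minimal (convexHull_min hnS hSconv) hSclosed) hqmem
    change ⟪q - c, q⟫ ≤ (‖q‖ ^ 2 - ‖c‖ ^ 2 - κ) / 2 at hqS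
    rw [inner_sub_left, real_inner_self_eq_norm_sq] at hqS
    have h5 := @norm_sub_sq_real _ _ _ q c
    rw [real_inner_comm] at h5
    nlinarith [sq_nonneg ‖q - c‖]
  have hmed : p + b ∈ medialAxis X := by
    change 1 < (nearest X (p + b)).encard
    rw [Set.one_lt_encard_iff]
    obtain ⟨x, hx, hxd⟩ := hX.exists_infDist_eq_dist hne (p + b)
    have hxn : x ∈ nearest X (p + b) := ⟨hx, hxd.symm⟩
    by_contra hcon
    push Not at hcon
    apply hnot x
    intro y hy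
    rw [← hcon x y hxn hy]
    exact mem_closedBall_self hlam.le
  rw [mem_iUnion₂]
  refine ⟨p + b, ⟨hmed, hnot⟩, ?_⟩
  rw [mem_ball, dist_eq_norm, show p - (p + b) = -b by abel, norm_neg]
  have h6 : ‖b‖ ^ 2 < (infDist (p + b) X) ^ 2 := by
    have : 0 ≤ ε * ‖b‖ ^ 2 := by positivity
    nlinarith
  exact lt_of_pow_lt_pow_left₀ 2 infDist_nonneg h6

end Pool.Agent.Results.MP_15b8d6_gt.Reconstructible
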